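import Mathlib

set_option autoImplicit false

namespace Pool.Agent.Results.MP_ded380_al.TypeIZeroDensityLiminf

open Finset

/-! ### The definitions of the problem -/

/-- `part l i` is the `i`-th largest part `l_i` (`i ≥ 1`) of the partition `l` of `n`, counted with
multiplicity, and `0` when `l` has fewer than `i` parts. -/
def part {n : ℕ} (l : n.Partition) (i : ℕ) : ℕ := (l.parts.sort (· ≥ ·)).getD (i - 1) 0

/-- `numParts l` is the number of parts of the partition `l`. -/
def numParts {n : ℕ} (l : n.Partition) : ℕ := Multiset.card l.parts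

/-- The hook length `h_l(i, j) = l_i - j + |{s ≥ i : l_s ≥ j}|` (rows and columns start at `1`). -/
def hookLength {n : ℕ} (l : n.Partition) (i j : ℕ) : ℕ :=
  part l i - j + #{s ∈ Icc i (numParts l) | j ≤ part l s}

/-- `l` is a `t`-core: no hook length of a cell `(i, j)` of `l` is divisible by `t`. -/
def IsCore (t : ℕ) {n : ℕ} (l : n.Partition) : Prop :=
  ∀ i ∈ Icc 1 (numParts l), ∀ j ∈ Icc 1 (part l i), ¬ t ∣ hookLength l i j

/-- The pair `(l, m)` is a type I zero: `l` is an `m_1`-core, `m_1` the largest part of `m`. -/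
def IsTypeIZero {n : ℕ} (l m : n.Partition) : Prop := IsCore (part m 1) l

/-- `z_I(S_n)`: the proportion of pairs of partitions of `n` that are type I zeros. -/
noncomputable def zI (n : ℕ) : ℝ :=
  (Nat.card {x : n.Partition × n.Partition // IsTypeIZero x.1 x.2} : ℝ) /
    (Nat.card n.Partition : ℝ) ^ 2

/-! ### Rows and beta numbers -/

/-- zero-indexed rows -/
def row {n : ℕ} (l : n.Partition) (i : ℕ) : ℕ := (l.parts.sort (· ≥ ·)).getD i 0

lemma part_succ {n : ℕ} (l : n.Partition) (i : ℕ) : part l (i + 1) = row l i := rfl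

lemma row_antitone {n : ℕ} (l : n.Partition) : Antitone (row l) := by
  intro i j hij
  unfold row
  set L := l.parts.sort (· ≥ ·) with hL
  have hs : L.Pairwise (· ≥ ·) := Multiset.pairwise_sort _ _
  rcases lt_or_ge j L.length with hj | hj
  · have hi : i < L.length := lt_of_le_of_lt hij hj
    rw [List.getD_eq_getElem _ _ hj, List.getD_eq_getElem _ _ hi]
    rcases eq_or_lt_of_le hij with h | h
    · subst h; exact le_rfl
    · exact List.pairwise_iff_getElem.1 hs i j hi hj h
  · rw [List.getD_eq_default _ _ hj]; exact Nat.zero_le _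

lemma length_sort_le {n : ℕ} (l : n.Partition) : (l.parts.sort (· ≥ ·)).length ≤ n := by
  rw [Multiset.length_sort]
  have h1 : Multiset.card l.parts • 1 ≤ l.parts.sum :=
    Multiset.card_nsmul_le_sum (fun x hx => l.parts_pos hx)
  simpa [l.parts_sum] using h1

lemma numParts_le {n : ℕ} (l : n.Partition) : numParts l ≤ n := by
  have := length_sort_le l
  rwa [Multiset.length_sort] at this

lemma row_eq_zero {n : ℕ} (l : n.Partition) {i : ℕ} (h : numParts l ≤ i) : row l i = 0 := by
  unfold row
  rw [List.getD_eq_default]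
  rwa [Multiset.length_sort]

lemma map_row_range {n : ℕ} (l : n.Partition) (k : ℕ) (hk : n ≤ k) :
    (List.range k).map (row l) =
      l.parts.sort (· ≥ ·) ++ List.replicate (k - numParts l) 0 := by
  have hlen := length_sort_le l
  have hn : numParts l = (l.parts.sort (· ≥ ·)).length := by
    rw [Multiset.length_sort]; rfl
  apply List.ext_getElem
  · simp only [List.length_map, List.length_range, List.length_append, List.length_replicate]
    omega
  · intro i h1 h2
    simp only [List.length_map, List.length_range] at h1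
    rw [List.getElem_map, List.getElem_range]
    rcases lt_or_ge i (l.parts.sort (· ≥ ·)).length with h | h
    · rw [List.getElem_append_left h]
      unfold row
      rw [List.getD_eq_getElem]
    · rw [List.getElem_append_right h, List.getElem_replicate]
      exact row_eq_zero l (hn ▸ h)

lemma sum_row {n : ℕ} (l : n.Partition) (k : ℕ) (hk : n ≤ k) : ∑ i ∈ range k, row l i = n := by
  have h := congrArg List.sum (map_row_range l k hk)
  rw [List.sum_append, List.sum_replicate] at h
  have h2 : (l.parts.sort (· ≥ ·)).sum = n := by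
    have := congrArg Multiset.sum (Multiset.sort_eq l.parts (· ≥ ·))
    rw [Multiset.sum_coe, l.parts_sum] at this
    exact this
  rw [h2] at h
  have h3 : ∑ i ∈ range k, row l i = ((List.range k).map (row l)).sum := by
    simp only [Finset.sum, Finset.range_val, Multiset.range, Multiset.map_coe, Multiset.sum_coe]
  rw [h3, h]
  simp

lemma eq_of_row_eq {n : ℕ} (l l' : n.Partition) (k : ℕ) (hk : n ≤ k)
    (h : ∀ i < k, row l i = row l' i) : l = l' := by
  have h1 := map_row_range l k hk
  have h2 := map_row_range l' k hk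
  have h3 : (List.range k).map (row l) = (List.range k).map (row l') := by
    apply List.map_congr_left
    intro i hi
    exact h i (List.mem_range.1 hi)
  rw [h1, h2] at h3
  have h4 := congrArg (fun L : List ℕ => L.filter (fun x => x ≠ 0)) h3
  simp only [List.filter_append] at h4
  have h5 : ∀ m : ℕ, (List.replicate m 0).filter (fun x : ℕ => decide (x ≠ 0)) = [] := by
    intro m
    rw [List.filter_eq_nil_iff]
    intro a ha
    have := List.eq_of_mem_replicate ha
    simp [this]
  rw [h5, h5, List.append_nil, List.append_nil] at h4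
  have h6 : ∀ m : n.Partition, (m.parts.sort (· ≥ ·)).filter (fun x : ℕ => decide (x ≠ 0)) =
      m.parts.sort (· ≥ ·) := by
    intro m
    rw [List.filter_eq_self]
    intro a ha
    have := m.parts_pos ((Multiset.mem_sort (· ≥ ·)).1 ha)
    simp; omega
  rw [h6, h6] at h4
  apply Nat.Partition.ext
  rw [← Multiset.sort_eq l.parts (· ≥ ·), ← Multiset.sort_eq l'.parts (· ≥ ·), h4]

/-- beta numbers -/
def bnum {n : ℕ} (k : ℕ) (l : n.Partition) (i : ℕ) : ℕ := row l i + (k - 1 - i)

def beta {n : ℕ} (k : ℕ) (l : n.Partition) : Finset ℕ := (range k).image (bnum k l)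

lemma bnum_lt {n : ℕ} (k : ℕ) (l : n.Partition) {i j : ℕ} (hij : i < j) (hj : j < k) :
    bnum k l j < bnum k l i := by
  unfold bnum
  have := row_antitone l hij.le
  omega

lemma bnum_injOn {n : ℕ} (k : ℕ) (l : n.Partition) :
    Set.InjOn (bnum k l) (range k : Set ℕ) := by
  intro i hi j hj h
  simp only [coe_range, Set.mem_Iio] at hi hj
  rcases lt_trichotomy i j with h1 | h1 | h1
  · exact absurd h (bnum_lt k l h1 hj).ne'
  · exact h1
  · exact absurd h (bnum_lt k l h1 hi).ne

lemma card_beta {n : ℕ} (k : ℕ) (l : n.Partition) : (beta k l).card = k := by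
  unfold beta
  rw [card_image_of_injOn (bnum_injOn k l), card_range]

lemma sum_beta {n : ℕ} (k : ℕ) (l : n.Partition) (hk : n ≤ k) :
    ∑ b ∈ beta k l, b = n + ∑ i ∈ range k, i := by
  unfold beta
  rw [sum_image (bnum_injOn k l)]
  unfold bnum
  rw [sum_add_distrib, sum_row l k hk, Finset.sum_range_reflect (fun i => i) k]

lemma beta_injective {n : ℕ} (k : ℕ) (hk : n ≤ k) (l l' : n.Partition)
    (h : beta k l = beta k l') : l = l' := by
  -- both lists are strictly decreasing with the same set of entries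
  have key : ∀ m : n.Partition, (List.range k).map (bnum k m) = (beta k m).sort (· ≥ ·) := by
    intro m
    have hp : List.Pairwise (· > ·) ((List.range k).map (bnum k m)) := by
      rw [List.pairwise_map]
      apply List.Pairwise.imp_of_mem _ (List.pairwise_lt_range)
      intro a b ha hb hab
      exact bnum_lt k m hab (List.mem_range.1 hb)
    apply List.Perm.eq_of_pairwise (le := (· ≥ ·))
    · intro a b _ _ h1 h2; exact le_antisymm h2 h1
    · exact hp.imp (fun h => le_of_lt h)
    · exact Finset.pairwise_sort _ _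
    · rw [List.perm_ext_iff_of_nodup]
      · intro a
        simp [beta]
      · exact hp.imp (fun h => ne_of_gt h)
      · exact Finset.sort_nodup _ _
  have h1 : (List.range k).map (bnum k l) = (List.range k).map (bnum k l') := by
    rw [key l, key l', h]
  apply eq_of_row_eq l l' k hk
  intro i hi
  have h2 := List.map_inj_left.1 h1 i (List.mem_range.2 hi)
  unfold bnum at h2
  omega

lemma flush {n : ℕ} (k t : ℕ) (hk : n ≤ k) (ht : 1 ≤ t) (l : n.Partition) (hc : IsCore t l)
    (b : ℕ) (hb : b ∈ beta k l) (hbt : t ≤ b) : b - t ∈ beta k l := by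
  by_contra hna
  unfold beta at hb
  rw [mem_image] at hb
  obtain ⟨i, hi, rfl⟩ := hb
  rw [mem_range] at hi
  set a := bnum k l i - t with ha
  have hna' : ∀ x < k, bnum k l x ≠ a := by
    intro x hx hxa
    apply hna
    unfold beta
    rw [mem_image]
    exact ⟨x, mem_range.2 hx, hxa⟩
  have hex : ∃ s, k ≤ s ∨ bnum k l s ≤ a := ⟨k, Or.inl le_rfl⟩
  obtain ⟨s, hs, hmin⟩ : ∃ s, (k ≤ s ∨ bnum k l s ≤ a) ∧ ∀ x < s, x < k ∧ a < bnum k l x := by
    classical
    refine ⟨Nat.find hex, Nat.find_spec hex, ?_⟩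
    intro x hx
    have := Nat.find_min hex hx
    push Not at this
    exact this
  have hsk : s ≤ k := by
    by_contra hcon
    have := hmin k (by omega)
    omega
  have his : i < s := by
    by_contra hcon
    rcases hs with hs | hs
    · omega
    · rcases eq_or_lt_of_le (not_lt.1 hcon) with h | h
      · subst h; omega
      · have := bnum_lt k l h hi
        omega
  have hja : k - s ≤ a := by
    rcases Nat.lt_or_ge s k with h | h
    · rcases hs with hs | hs
      · omega
      · have := hna' s h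
        unfold bnum at this hs
        omega
    · omega
  -- rows
  have hrow : ∀ x < s, a - (k - s) + 1 ≤ row l x := by
    intro x hx
    have h1 := hmin (s - 1) (by omega)
    have h2 : row l (s - 1) ≤ row l x := row_antitone l (by omega)
    unfold bnum at h1
    omega
  have hrow2 : ∀ x, s ≤ x → row l x < a - (k - s) + 1 := by
    intro x hx
    rcases Nat.lt_or_ge s k with h | h
    · have h1 : row l x ≤ row l s := row_antitone l hx
      rcases hs with hs | hs
      · omega
      · have := hna' s h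
        unfold bnum at this hs
        omega
    · have : row l x = 0 := row_eq_zero l (by have := numParts_le l; omega)
      omega
  have hpos : ∀ x, 0 < row l x → x < numParts l := by
    intro x hx
    by_contra hcon
    rw [row_eq_zero l (not_lt.1 hcon)] at hx
    exact absurd hx (lt_irrefl _)
  have hcount : {x ∈ Icc (i + 1) (numParts l) | a - (k - s) + 1 ≤ part l x} = Icc (i + 1) s := by
    ext x
    simp only [mem_filter, mem_Icc]
    constructor
    · rintro ⟨⟨h1, h2⟩, h3⟩
      refine ⟨h1, ?_⟩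
      by_contra hcon
      have h4 := hrow2 (x - 1) (by omega)
      have h5 : part l x = row l (x - 1) := rfl
      omega
    · rintro ⟨h1, h2⟩
      have h4 := hrow (x - 1) (by omega)
      have h5 : part l x = row l (x - 1) := rfl
      have h6 := hpos (x - 1) (by omega)
      refine ⟨⟨h1, by omega⟩, by omega⟩
  have hri := hrow i his
  apply hc (i + 1) (by rw [mem_Icc]; exact ⟨by omega, hpos i (by omega)⟩) (a - (k - s) + 1)
    (by rw [mem_Icc, part_succ]; exact ⟨by omega, hri⟩)
  unfold hookLength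
  rw [hcount, part_succ, Nat.card_Icc]
  have h7 : row l i - (a - (k - s) + 1) + (s + 1 - (i + 1)) = t := by
    unfold bnum at ha hbt
    omega
  rw [h7]

/-- every small number is a beta number -/
lemma small_mem_beta {n : ℕ} (k t : ℕ) (hk : n + t ≤ k) (l : n.Partition) (r : ℕ) (hr : r < t) :
    r ∈ beta k l := by
  unfold beta
  rw [mem_image]
  refine ⟨k - 1 - r, mem_range.2 (by omega), ?_⟩
  unfold bnum
  rw [row_eq_zero l (by have := numParts_le l; omega)]
  omega

/-- the largest bead on the runner `r` -/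
def top {n : ℕ} (k t : ℕ) (l : n.Partition) (r : ℕ) : ℕ := {b ∈ beta k l | b % t = r}.sup id

lemma top_spec {n : ℕ} (k t : ℕ) (hk : n + t ≤ k) (l : n.Partition) (r : ℕ) (hr : r < t) :
    top k t l r ∈ beta k l ∧ top k t l r % t = r ∧
      ∀ b ∈ beta k l, b % t = r → b ≤ top k t l r := by
  have hne : {b ∈ beta k l | b % t = r}.Nonempty :=
    ⟨r, by rw [mem_filter]; exact ⟨small_mem_beta k t hk l r hr, Nat.mod_eq_of_lt hr⟩⟩
  obtain ⟨b, hb, hb2⟩ := exists_mem_eq_sup _ hne (id : ℕ → ℕ)
  have hb3 : top k t l r = b := hb2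
  rw [mem_filter] at hb
  refine ⟨hb3 ▸ hb.1, by rw [hb3]; exact hb.2, ?_⟩
  intro c hc hc2
  exact le_sup (f := (id : ℕ → ℕ)) (mem_filter.2 ⟨hc, hc2⟩)

/-- adding one rim hook of length `t` on the runner `r` -/
def addHook {n : ℕ} (k t : ℕ) (l : n.Partition) (r : ℕ) : Finset ℕ :=
  insert (top k t l r + t) ((beta k l).erase (top k t l r))

lemma top_add_notMem {n : ℕ} (k t : ℕ) (hk : n + t ≤ k) (l : n.Partition) (r : ℕ) (hr : r < t) :
    top k t l r + t ∉ beta k l := by
  obtain ⟨h1, h2, h3⟩ := top_spec k t hk l r hr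
  intro h
  have := h3 _ h (by rw [Nat.add_mod_right]; exact h2)
  omega

lemma card_addHook {n : ℕ} (k t : ℕ) (hk : n + t ≤ k) (l : n.Partition) (r : ℕ) (hr : r < t) :
    (addHook k t l r).card = k := by
  obtain ⟨h1, h2, h3⟩ := top_spec k t hk l r hr
  have h4 := top_add_notMem k t hk l r hr
  unfold addHook
  rw [card_insert_of_notMem (fun h => h4 (mem_of_mem_erase h)), card_erase_of_mem h1, card_beta]
  omega

lemma sum_addHook {n : ℕ} (k t : ℕ) (hk : n + t ≤ k) (l : n.Partition) (r : ℕ) (hr : r < t) :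
    ∑ b ∈ addHook k t l r, b = (n + t) + ∑ i ∈ range k, i := by
  obtain ⟨h1, h2, h3⟩ := top_spec k t hk l r hr
  have h4 := top_add_notMem k t hk l r hr
  unfold addHook
  rw [sum_insert (fun h => h4 (mem_of_mem_erase h))]
  have h5 := add_sum_erase (beta k l) (fun b => b) h1
  have h6 := sum_beta k l (by omega)
  omega

/-- The result of `addHook` determines the core and the runner. -/
lemma addHook_injective {n : ℕ} (k t : ℕ) (hk : n + t ≤ k) (ht : 1 ≤ t)
    (l l' : n.Partition) (hl : IsCore t l) (hl' : IsCore t l') (r r' : ℕ) (hr : r < t)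
    (hr' : r' < t) (h : addHook k t l r = addHook k t l' r') : l = l' ∧ r = r' := by
  -- uniqueness of the bead that is not flush
  have key : ∀ (m : n.Partition) (u : ℕ), IsCore t m → u < t →
      (top k t m u + t ∈ addHook k t m u ∧ top k t m u ∉ addHook k t m u) ∧
      ∀ c ∈ addHook k t m u, t ≤ c → c - t ∉ addHook k t m u → c = top k t m u + t := by
    intro m u hm hu
    obtain ⟨h1, h2, h3⟩ := top_spec k t hk m u hu
    have h4 := top_add_notMem k t hk m u hu
    refine ⟨⟨mem_insert_self _ _, ?_⟩, ?_⟩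
    · unfold addHook
      rw [mem_insert]
      rintro (h5 | h5)
      · omega
      · exact (notMem_erase _ _) h5
    · intro c hc htc hct
      unfold addHook at hc hct
      rw [mem_insert] at hc hct
      rcases hc with hc | hc
      · exact hc
      · exfalso
        apply hct
        right
        rw [mem_erase] at hc ⊢
        refine ⟨?_, flush k t (by omega) ht m hm c hc.2 htc⟩
        intro h5
        apply h4
        rw [← h5, Nat.sub_add_cancel htc]
        exact hc.2
  obtain ⟨⟨a1, a2⟩, a3⟩ := key l r hl hr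
  obtain ⟨⟨b1, b2⟩, b3⟩ := key l' r' hl' hr'
  have h1 : top k t l r + t = top k t l' r' + t := by
    apply b3 _ (h ▸ a1) (by omega)
    rw [← h, Nat.add_sub_cancel]
    exact a2
  have h2 : top k t l r = top k t l' r' := by omega
  have h3 : beta k l = beta k l' := by
    have e1 : ∀ (m : n.Partition) (u : ℕ), u < t →
        beta k m = insert (top k t m u) ((addHook k t m u).erase (top k t m u + t)) := by
      intro m u hu
      obtain ⟨g1, g2, g3⟩ := top_spec k t hk m u hu
      have g4 := top_add_notMem k t hk m u hu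
      unfold addHook
      rw [erase_insert (fun h => g4 (mem_of_mem_erase h)), insert_erase g1]
    rw [e1 l r hr, e1 l' r' hr', h, h2]
  refine ⟨beta_injective k (by omega) l l' h3, ?_⟩
  have h4 := (top_spec k t hk l r hr).2.1
  have h5 := (top_spec k t hk l' r' hr').2.1
  rw [← h4, ← h5, h2]

/-- the multiset of parts encoded by a set of beads (zeros included) -/
def gaps (B : Finset ℕ) : Multiset ℕ :=
  (Multiset.ofList (List.ofFn (fun i : Fin B.card => B.orderEmbOfFin rfl i - (i : ℕ))))

lemma le_orderEmb (B : Finset ℕ) (i : Fin B.card) : (i : ℕ) ≤ B.orderEmbOfFin rfl i := by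
  obtain ⟨i, hi⟩ := i
  induction i with
  | zero => exact Nat.zero_le _
  | succ j ih =>
    have h1 : j ≤ B.orderEmbOfFin rfl ⟨j, by omega⟩ := ih (by omega)
    have h2 : B.orderEmbOfFin rfl ⟨j, by omega⟩ < B.orderEmbOfFin rfl ⟨j + 1, hi⟩ := by
      rw [OrderEmbedding.lt_iff_lt]
      exact Nat.lt_succ_self j
    exact Nat.succ_le_of_lt (lt_of_le_of_lt h1 h2)

lemma sum_gaps (B : Finset ℕ) : (gaps B).sum + ∑ i ∈ range B.card, i = ∑ b ∈ B, b := by
  unfold gaps
  rw [Multiset.sum_coe, List.sum_ofFn, ← Fin.sum_univ_eq_sum_range, ← sum_add_distrib]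
  have h1 : ∀ i : Fin B.card, B.orderEmbOfFin rfl i - (i : ℕ) + (i : ℕ) =
      B.orderEmbOfFin rfl i := fun i => Nat.sub_add_cancel (le_orderEmb B i)
  rw [sum_congr rfl (fun i _ => h1 i)]
  conv_rhs => rw [← image_orderEmbOfFin_univ B rfl]
  rw [sum_image (by intro a _ b _ h; exact (B.orderEmbOfFin rfl).injective h)]

lemma gaps_injective (B C : Finset ℕ) (hcard : B.card = C.card)
    (h : (gaps B).filter (· ≠ 0) = (gaps C).filter (· ≠ 0)) : B = C := by
  -- the multisets with zeros agree
  have h0 : gaps B = gaps C := by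
    have e1 := Multiset.filter_add_not (fun x : ℕ => x ≠ 0) (gaps B)
    have e2 := Multiset.filter_add_not (fun x : ℕ => x ≠ 0) (gaps C)
    have hz : ∀ D : Finset ℕ, (gaps D).filter (fun x => ¬ (x ≠ 0)) =
        Multiset.replicate (D.card - Multiset.card ((gaps D).filter (· ≠ 0))) 0 := by
      intro D
      rw [Multiset.eq_replicate]
      constructor
      · have e3 := congrArg Multiset.card (Multiset.filter_add_not (fun x : ℕ => x ≠ 0) (gaps D))
        rw [Multiset.card_add] at e3
        have e4 : Multiset.card (gaps D) = D.card := by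
          unfold gaps
          rw [Multiset.coe_card, List.length_ofFn]
        omega
      · intro b hb
        have := Multiset.of_mem_filter hb
        omega
    rw [← e1, ← e2, hz B, hz C, h, hcard]
  have hs : ∀ D : Finset ℕ,
      (List.ofFn (fun i : Fin D.card => D.orderEmbOfFin rfl i - (i : ℕ))).Pairwise (· ≤ ·) := by
    intro D
    rw [List.pairwise_ofFn]
    intro i j hij
    have hmono : ∀ d : ℕ, ∀ i j : Fin D.card, (i : ℕ) + d = j →
        D.orderEmbOfFin rfl i + d ≤ D.orderEmbOfFin rfl j := by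
      intro d
      induction d with
      | zero =>
        intro i j hij
        have : i = j := Fin.ext hij
        subst this
        exact le_rfl
      | succ d ih =>
        intro i j hij
        have h1 := ih i ⟨i + d, by omega⟩ rfl
        have h2 : D.orderEmbOfFin rfl ⟨i + d, by omega⟩ < D.orderEmbOfFin rfl j := by
          rw [OrderEmbedding.lt_iff_lt]
          exact Fin.lt_def.2 (by simp only; omega)
        omega
    have h3 := hmono ((j : ℕ) - i) i j (by have := Fin.lt_def.1 hij; omega)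
    have h4 := Fin.lt_def.1 hij
    omega
  have h1 : List.ofFn (fun i : Fin B.card => B.orderEmbOfFin rfl i - (i : ℕ)) =
      List.ofFn (fun i : Fin C.card => C.orderEmbOfFin rfl i - (i : ℕ)) := by
    apply List.Perm.eq_of_pairwise (le := (· ≤ ·))
    · intro a b _ _ h1 h2; exact le_antisymm h1 h2
    · exact hs B
    · exact hs C
    · exact Multiset.coe_eq_coe.1 h0
  have h2 : ∀ (i : ℕ) (hi : i < B.card), B.orderEmbOfFin rfl ⟨i, hi⟩ =
      C.orderEmbOfFin rfl ⟨i, hcard ▸ hi⟩ := by
    intro i hi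
    have e1 : (List.ofFn (fun i : Fin B.card => B.orderEmbOfFin rfl i - (i : ℕ)))[i]'(by
        rw [List.length_ofFn]; exact hi) = B.orderEmbOfFin rfl ⟨i, hi⟩ - i := by
      rw [List.getElem_ofFn]
    have e2 : (List.ofFn (fun i : Fin C.card => C.orderEmbOfFin rfl i - (i : ℕ)))[i]'(by
        rw [List.length_ofFn]; omega) = C.orderEmbOfFin rfl ⟨i, hcard ▸ hi⟩ - i := by
      rw [List.getElem_ofFn]
    have e3 : B.orderEmbOfFin rfl ⟨i, hi⟩ - i = C.orderEmbOfFin rfl ⟨i, hcard ▸ hi⟩ - i := by
      rw [← e1, ← e2]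
      simp only [h1]
    have e4 := le_orderEmb B ⟨i, hi⟩
    have e5 := le_orderEmb C ⟨i, hcard ▸ hi⟩
    simp only at e4 e5
    omega
  rw [← image_orderEmbOfFin_univ B rfl, ← image_orderEmbOfFin_univ C rfl]
  ext x
  simp only [mem_image, mem_univ, true_and]
  constructor
  · rintro ⟨⟨i, hi⟩, rfl⟩
    exact ⟨⟨i, hcard ▸ hi⟩, (h2 i hi).symm⟩
  · rintro ⟨⟨i, hi⟩, rfl⟩
    exact ⟨⟨i, hcard.symm ▸ hi⟩, h2 i (hcard.symm ▸ hi)⟩

open Classical in
/-- A `t`-core of size `n` can be extended in `t` ways: `c_t(n) · t ≤ p(n + t)`. -/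
lemma core_mul_le (n t : ℕ) (ht : 1 ≤ t) :
    #{l : n.Partition | IsCore t l} * t ≤ Fintype.card (n + t).Partition := by
  have h1 : #{l : n.Partition | IsCore t l} * t =
      #(({l : n.Partition | IsCore t l} : Finset _) ×ˢ range t) := by
    rw [card_product, card_range]
  rw [h1, ← card_univ]
  let F : n.Partition × ℕ → (n + t).Partition := fun x =>
    if h : (gaps (addHook (n + t) t x.1 x.2)).sum = n + t then
      Nat.Partition.ofSums (n + t) (gaps (addHook (n + t) t x.1 x.2)) h
    else default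
  have hF : ∀ (l : n.Partition) (r : ℕ), r < t →
      (F (l, r)).parts = (gaps (addHook (n + t) t l r)).filter (· ≠ 0) := by
    intro l r hr
    have hsum : (gaps (addHook (n + t) t l r)).sum = n + t := by
      have e1 := sum_gaps (addHook (n + t) t l r)
      rw [card_addHook (n + t) t le_rfl l r hr, sum_addHook (n + t) t le_rfl l r hr] at e1
      omega
    simp only [F, dif_pos hsum, Nat.Partition.ofSums_parts]
  apply card_le_card_of_injOn F (fun _ _ => mem_coe.2 (mem_univ _))
  rintro ⟨l, r⟩ hx ⟨l', r'⟩ hy hxy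
  simp only [coe_product, coe_filter, mem_univ, true_and, coe_range, Set.mem_prod,
    Set.mem_ofPred_eq, Set.mem_Iio] at hx hy
  have h2 := congrArg Nat.Partition.parts hxy
  rw [hF l r hx.2, hF l' r' hy.2] at h2
  have h3 := gaps_injective _ _ (by
    rw [card_addHook _ _ le_rfl l r hx.2, card_addHook _ _ le_rfl l' r' hy.2]) h2
  obtain ⟨h4, h5⟩ := addHook_injective (n + t) t le_rfl ht l l' hx.1 hy.1 r r' hx.2 hy.2 h3
  rw [h4, h5]

/-! ### Elementary bounds for partition numbers -/

/-- the number of partitions of `n` -/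
def P (n : ℕ) : ℕ := Fintype.card n.Partition

lemma P_pos (n : ℕ) : 0 < P n := Fintype.card_pos

lemma row_zero_mem {n : ℕ} (hn : 1 ≤ n) (m : n.Partition) : part m 1 ∈ m.parts := by
  have h1 : 0 < (m.parts.sort (· ≥ ·)).length := by
    rw [Multiset.length_sort, Multiset.card_pos]
    rintro h
    have := m.parts_sum
    rw [h] at this
    simp at this
    omega
  have h2 : part m 1 = (m.parts.sort (· ≥ ·))[0] := by
    unfold part
    rw [List.getD_eq_getElem _ _ h1]
  rw [h2, ← Multiset.mem_sort (· ≥ ·)]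
  exact List.getElem_mem h1

lemma le_part_one {n : ℕ} (m : n.Partition) {x : ℕ} (hx : x ∈ m.parts) : x ≤ part m 1 := by
  rw [← Multiset.mem_sort (· ≥ ·)] at hx
  obtain ⟨i, hi, rfl⟩ := List.getElem_of_mem hx
  have h1 : (m.parts.sort (· ≥ ·))[i] = row m i := by
    unfold row
    rw [List.getD_eq_getElem _ _ hi]
  rw [h1]
  exact row_antitone m (Nat.zero_le i)

open Classical in
lemma card_part_eq_le (n t : ℕ) (ht : 1 ≤ t) (htn : t ≤ n) :
    #{m : n.Partition | part m 1 = t} ≤ P (n - t) := by
  unfold P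
  rw [← Fintype.card_congr (Nat.Partition.partitionWithPartEquiv ht htn), Fintype.card_subtype]
  apply card_le_card
  intro m hm
  rw [mem_filter] at hm ⊢
  refine ⟨hm.1, ?_⟩
  rw [← hm.2]
  exact row_zero_mem (by omega) m

open Classical in
lemma card_large_le (n T : ℕ) (hT : 1 ≤ T) :
    #{m : n.Partition | T ≤ part m 1} ≤ ∑ t ∈ Icc T n, P (n - t) := by
  have h1 : ({m : n.Partition | T ≤ part m 1} : Finset _) ⊆
      (Icc T n).biUnion (fun t => {m : n.Partition | part m 1 = t}) := by
    intro m hm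
    rw [mem_filter] at hm
    rw [mem_biUnion]
    refine ⟨part m 1, ?_, by simp⟩
    rw [mem_Icc]
    refine ⟨hm.2, ?_⟩
    have hn : 1 ≤ n := by
      by_contra hcon
      have h2 : part m 1 = 0 := by
        have := row_eq_zero m (i := 0) (by have := numParts_le m; omega)
        exact this
      omega
    exact Nat.Partition.le_of_mem_parts (row_zero_mem hn m)
  refine (card_le_card h1).trans (card_biUnion_le.trans (sum_le_sum ?_))
  intro t ht
  rw [mem_Icc] at ht
  exact card_part_eq_le n t (by omega) ht.2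

open Classical in
lemma card_small_mul_le (n u S : ℕ) :
    #{m : n.Partition | part m 1 ≤ u} * (S - u) ≤ P (n + S) := by
  have h1 : #{m : n.Partition | part m 1 ≤ u} * (S - u) =
      #(({m : n.Partition | part m 1 ≤ u} : Finset _) ×ˢ Ioc u S) := by
    rw [card_product, Nat.card_Ioc]
  unfold P
  rw [h1, ← card_univ]
  let G : n.Partition × ℕ → Multiset ℕ := fun x => x.2 ::ₘ (x.1.parts + Multiset.replicate (S - x.2) 1)
  let F : n.Partition × ℕ → (n + S).Partition := fun x =>
    if h : (G x).sum = n + S then Nat.Partition.ofSums (n + S) (G x) h else default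
  have hF : ∀ (m : n.Partition) (s : ℕ), s ∈ Ioc u S → (F (m, s)).parts = G (m, s) := by
    intro m s hs
    rw [mem_Ioc] at hs
    have hsum : (G (m, s)).sum = n + S := by
      simp only [G, Multiset.sum_cons, Multiset.sum_add, m.parts_sum, Multiset.sum_replicate,
        smul_eq_mul, mul_one]
      omega
    simp only [F, dif_pos hsum, Nat.Partition.ofSums_parts]
    rw [Multiset.filter_eq_self]
    intro a ha
    simp only [G, Multiset.mem_cons, Multiset.mem_add] at ha
    rcases ha with ha | ha | ha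
    · omega
    · exact (m.parts_pos ha).ne'
    · rw [Multiset.eq_of_mem_replicate ha]; exact one_ne_zero
  apply card_le_card_of_injOn F (fun _ _ => mem_coe.2 (mem_univ _))
  have hlt : ∀ (m m' : n.Partition) (s s' : ℕ), part m 1 ≤ u → s ∈ Ioc u S → s' ∈ Ioc u S →
      G (m, s) = G (m', s') → s' ≤ s := by
    intro m m' s s' hm hs hs' h
    rw [mem_Ioc] at hs hs'
    have h2 : s' ∈ G (m, s) := by
      rw [h]
      simp [G]
    simp only [G, Multiset.mem_cons, Multiset.mem_add] at h2
    rcases h2 with h2 | h2 | h2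
    · omega
    · have := le_part_one m h2
      omega
    · have := Multiset.eq_of_mem_replicate h2
      omega
  rintro ⟨m, s⟩ hx ⟨m', s'⟩ hy hxy
  simp only [coe_product, coe_filter, mem_univ, true_and, Set.mem_prod,
    Set.mem_ofPred_eq, mem_coe] at hx hy
  have h2 := congrArg Nat.Partition.parts hxy
  rw [hF m s hx.2, hF m' s' hy.2] at h2
  have h3 : s = s' := le_antisymm (hlt m' m s' s hy.1 hy.2 hx.2 h2.symm) (hlt m m' s s' hx.1 hx.2 hy.2 h2)
  subst h3
  simp only [G, Multiset.cons_inj_right] at h2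
  have h4 : m = m' := Nat.Partition.ext (by simpa using h2)
  rw [h4]

lemma le_P (S : ℕ) : S ≤ P S := by
  classical
  have h := card_small_mul_le 0 0 S
  have h1 : #{m : Nat.Partition 0 | part m 1 ≤ 0} = 1 := by
    rw [filter_true_of_mem]
    · rw [card_univ]; exact Fintype.card_unique
    · intro m _
      have := row_eq_zero m (i := 0) (by have := numParts_le m; omega)
      exact this.le
  rw [h1] at h
  simpa using h

lemma geom_le (x : ℝ) (hx0 : 0 ≤ x) (hx1 : x < 1) (N : ℕ) :
    ∑ j ∈ range N, x ^ j ≤ 1 / (1 - x) := by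
  rw [le_div_iff₀ (sub_pos.2 hx1), mul_comm, mul_neg_geom_sum]
  have : 0 ≤ x ^ N := pow_nonneg hx0 N
  linarith

/-- partition numbers grow subexponentially -/
lemma P_mul_pow_le (q : ℝ) (hq0 : 0 < q) (hq1 : q < 1) (n : ℕ) :
    (P n : ℝ) * q ^ n ≤ Real.exp (q / (1 - q) ^ 2) := by
  classical
  -- encode a partition by its multiplicities
  let Φ : n.Partition → (Fin n → Fin (n + 1)) := fun m i =>
    ⟨m.parts.count ((i : ℕ) + 1), by
      have h1 : m.parts.count ((i : ℕ) + 1) ≤ Multiset.card m.parts := Multiset.count_le_card _ _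
      have h2 := numParts_le m
      unfold numParts at h2
      omega⟩
  have hsum : ∀ m : n.Partition, ∑ i : Fin n, ((i : ℕ) + 1) * (m.parts.count ((i : ℕ) + 1)) = n := by
    intro m
    have h1 : m.parts.sum = n := m.parts_sum
    rw [Finset.sum_multiset_count] at h1
    have h2 : ∑ x ∈ m.parts.toFinset, m.parts.count x • x = ∑ x ∈ Icc 1 n, m.parts.count x • x := by
      apply sum_subset
      · intro x hx
        rw [Multiset.mem_toFinset] at hx
        rw [mem_Icc]
        exact ⟨m.parts_pos hx, Nat.Partition.le_of_mem_parts hx⟩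
      · intro x _ hx
        rw [Multiset.mem_toFinset, ← Multiset.count_eq_zero] at hx
        rw [hx, zero_smul]
    rw [h2] at h1
    rw [Fin.sum_univ_eq_sum_range (fun i => (i + 1) * m.parts.count (i + 1)) n]
    have h3 : ∑ x ∈ Icc 1 n, m.parts.count x • x =
        ∑ i ∈ range n, (i + 1) * m.parts.count (i + 1) := by
      symm
      apply sum_nbij (fun i => i + 1)
      · intro a ha; rw [mem_range] at ha; rw [mem_Icc]; omega
      · intro a _ b _ hab; simpa using hab
      · intro a ha
        rw [mem_coe, mem_Icc] at ha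
        exact ⟨a - 1, by rw [mem_coe, mem_range]; omega, by simp only; omega⟩
      · intro a ha
        rw [smul_eq_mul, mul_comm]
    rw [← h3, h1]
  have hΦ : Function.Injective Φ := by
    intro m m' h
    apply Nat.Partition.ext
    rw [Multiset.ext]
    intro a
    have hcount : ∀ m : n.Partition, ∀ b, (b = 0 ∨ n < b) → m.parts.count b = 0 := by
      intro m b hb
      rw [Multiset.count_eq_zero]
      intro hmem
      have h1 := m.parts_pos hmem
      have h2 := Nat.Partition.le_of_mem_parts hmem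
      omega
    by_cases ha : a = 0 ∨ n < a
    · rw [hcount m a ha, hcount m' a ha]
    · push Not at ha
      have h1 := congrFun h ⟨a - 1, by omega⟩
      simp only [Φ, Fin.mk.injEq] at h1
      rwa [Nat.sub_add_cancel (by omega)] at h1
  let g : (Fin n → Fin (n + 1)) → ℝ := fun f => ∏ i : Fin n, (q ^ ((i : ℕ) + 1)) ^ ((f i : Fin (n + 1)) : ℕ)
  have hg : ∀ m : n.Partition, g (Φ m) = q ^ n := by
    intro m
    simp only [g, Φ, ← pow_mul]
    rw [prod_pow_eq_pow_sum, hsum m]
  have h1 : (P n : ℝ) * q ^ n ≤ ∑ f : Fin n → Fin (n + 1), g f := by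
    calc (P n : ℝ) * q ^ n = ∑ m : n.Partition, g (Φ m) := by
          simp only [hg, sum_const, card_univ, nsmul_eq_mul, P]
      _ = ∑ f ∈ univ.image Φ, g f := by
          rw [sum_image (fun a _ b _ h => hΦ h)]
      _ ≤ _ := by
          apply sum_le_sum_of_subset_of_nonneg (subset_univ _)
          intro f _ _
          exact prod_nonneg (fun i _ => by positivity)
  have h2 : ∑ f : Fin n → Fin (n + 1), g f =
      ∏ i : Fin n, ∑ j : Fin (n + 1), (q ^ ((i : ℕ) + 1)) ^ (j : ℕ) := by
    rw [prod_univ_sum, Fintype.piFinset_univ]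
  have h3 : ∀ i : Fin n, ∑ j : Fin (n + 1), (q ^ ((i : ℕ) + 1)) ^ (j : ℕ) ≤
      Real.exp (q ^ ((i : ℕ) + 1) / (1 - q)) := by
    intro i
    set x := q ^ ((i : ℕ) + 1) with hx
    have hx0 : 0 < x := by positivity
    have hxq : x ≤ q := by
      rw [hx, pow_succ]
      exact mul_le_of_le_one_left hq0.le (pow_le_one₀ hq0.le hq1.le)
    have hx1 : x < 1 := lt_of_le_of_lt hxq hq1
    rw [Fin.sum_univ_eq_sum_range (fun j => x ^ j) (n + 1)]
    have e1 : ∑ j ∈ range (n + 1), x ^ j ≤ 1 / (1 - x) := geom_le x hx0.le hx1 _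
    have e2 : 1 / (1 - x) = x / (1 - x) + 1 := by
      field_simp [(sub_pos.2 hx1).ne']
      ring
    calc ∑ j ∈ range (n + 1), x ^ j ≤ 1 / (1 - x) := e1
      _ = x / (1 - x) + 1 := e2
      _ ≤ Real.exp (x / (1 - x)) := Real.add_one_le_exp _
      _ ≤ Real.exp (x / (1 - q)) := by
          apply Real.exp_le_exp.2
          apply div_le_div_of_nonneg_left hx0.le (by linarith) (by linarith)
  calc (P n : ℝ) * q ^ n ≤ ∏ i : Fin n, ∑ j : Fin (n + 1), (q ^ ((i : ℕ) + 1)) ^ (j : ℕ) := by
        rw [← h2]; exact h1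
    _ ≤ ∏ i : Fin n, Real.exp (q ^ ((i : ℕ) + 1) / (1 - q)) := by
        apply prod_le_prod
        · intro i _
          exact sum_nonneg (fun j _ => by positivity)
        · intro i _
          exact h3 i
    _ = Real.exp (∑ i : Fin n, q ^ ((i : ℕ) + 1) / (1 - q)) := (Real.exp_sum _ _).symm
    _ ≤ Real.exp (q / (1 - q) ^ 2) := by
        apply Real.exp_le_exp.2
        rw [Fin.sum_univ_eq_sum_range (fun j => q ^ (j + 1) / (1 - q)) n, ← sum_div]
        have e1 : ∑ j ∈ range n, q ^ (j + 1) = q * ∑ j ∈ range n, q ^ j := by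
          rw [mul_sum]
          exact sum_congr rfl (fun j _ => pow_succ' q j)
        have e2 := geom_le q hq0.le hq1 n
        have e3 : 0 < 1 - q := sub_pos.2 hq1
        rw [e1, div_le_div_iff₀ e3 (by positivity)]
        rw [le_div_iff₀ e3] at e2
        nlinarith [mul_le_mul_of_nonneg_left e2 (mul_nonneg hq0.le e3.le)]

/-- for every slope there is a supporting partition number -/
lemma exists_support (m : ℕ) (hm : 1 ≤ m) :
    ∃ ns : ℕ, ∀ n : ℕ, (P n : ℝ) * Real.exp (-(n / m : ℝ)) ≤ P ns * Real.exp (-(ns / m : ℝ)) := by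
  have hm0 : (0 : ℝ) < m := by exact_mod_cast hm
  set q : ℝ := Real.exp (-(1 / (2 * m) : ℝ)) with hq
  have hq0 : 0 < q := Real.exp_pos _
  have hq1 : q < 1 := by
    rw [hq, Real.exp_lt_one_iff]
    have : (0 : ℝ) < 1 / (2 * m) := by positivity
    linarith
  set B := Real.exp (q / (1 - q) ^ 2) with hB
  have hpow : ∀ n : ℕ, Real.exp (-(n / m : ℝ)) = q ^ n * q ^ n := by
    intro n
    rw [hq, ← Real.exp_nat_mul, ← Real.exp_add]
    congr 1
    field_simp
    ring
  have hb : ∀ n : ℕ, (P n : ℝ) * Real.exp (-(n / m : ℝ)) ≤ B * q ^ n := by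
    intro n
    rw [hpow, ← mul_assoc]
    exact mul_le_mul_of_nonneg_right (P_mul_pow_le q hq0 hq1 n) (pow_nonneg hq0.le n)
  have hlim : Filter.Tendsto (fun n : ℕ => B * q ^ n) Filter.atTop (nhds 0) := by
    have := (tendsto_pow_atTop_nhds_zero_of_lt_one hq0.le hq1).const_mul B
    simpa using this
  obtain ⟨N, hN⟩ := (hlim.eventually (gt_mem_nhds (zero_lt_one))).exists_forall_of_atTop
  obtain ⟨ns, _, hns⟩ := exists_max_image (range (N + 1))
    (fun n : ℕ => (P n : ℝ) * Real.exp (-(n / m : ℝ))) ⟨0, by simp⟩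
  refine ⟨ns, fun n => ?_⟩
  rcases Nat.lt_or_ge n (N + 1) with h | h
  · exact hns n (mem_range.2 h)
  · have h1 := hns 0 (by simp)
    have h2 := hb n
    have h3 := hN n (by omega)
    have h4 : (1 : ℝ) ≤ P 0 := by exact_mod_cast P_pos 0
    simp only [CharP.cast_eq_zero, zero_div, neg_zero, Real.exp_zero, mul_one] at h1
    linarith

lemma P_add_le {m ns : ℕ}
    (hns : ∀ n : ℕ, (P n : ℝ) * Real.exp (-(n / m : ℝ)) ≤ P ns * Real.exp (-(ns / m : ℝ)))
    (t : ℕ) : (P (ns + t) : ℝ) ≤ P ns * Real.exp (t / m : ℝ) := by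
  have h1 := hns (ns + t)
  have h2 : Real.exp (-(((ns + t : ℕ) : ℝ) / m)) * Real.exp (((ns + t : ℕ) : ℝ) / m) = 1 := by
    rw [← Real.exp_add]; simp
  have h3 : Real.exp (-(ns / m : ℝ)) * Real.exp (((ns + t : ℕ) : ℝ) / m) = Real.exp (t / m : ℝ) := by
    rw [← Real.exp_add]
    congr 1
    push_cast
    ring
  calc (P (ns + t) : ℝ) = P (ns + t) * (Real.exp (-(((ns + t : ℕ) : ℝ) / m)) *
        Real.exp (((ns + t : ℕ) : ℝ) / m)) := by rw [h2, mul_one]
    _ = (P (ns + t) * Real.exp (-(((ns + t : ℕ) : ℝ) / m))) *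
        Real.exp (((ns + t : ℕ) : ℝ) / m) := by ring
    _ ≤ (P ns * Real.exp (-(ns / m : ℝ))) * Real.exp (((ns + t : ℕ) : ℝ) / m) :=
        mul_le_mul_of_nonneg_right h1 (Real.exp_pos _).le
    _ = P ns * Real.exp (t / m : ℝ) := by rw [mul_assoc, h3]

lemma P_sub_le {m ns : ℕ}
    (hns : ∀ n : ℕ, (P n : ℝ) * Real.exp (-(n / m : ℝ)) ≤ P ns * Real.exp (-(ns / m : ℝ)))
    (t : ℕ) (ht : t ≤ ns) : (P (ns - t) : ℝ) ≤ P ns * Real.exp (-(t / m : ℝ)) := by
  have h1 := hns (ns - t)
  rw [Nat.cast_sub ht] at h1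
  have h2 : Real.exp (-(((ns : ℝ) - t) / m)) * Real.exp (((ns : ℝ) - t) / m) = 1 := by
    rw [← Real.exp_add]; simp
  have h3 : Real.exp (-(ns / m : ℝ)) * Real.exp (((ns : ℝ) - t) / m) = Real.exp (-(t / m : ℝ)) := by
    rw [← Real.exp_add]
    congr 1
    ring
  calc (P (ns - t) : ℝ) = P (ns - t) * (Real.exp (-(((ns : ℝ) - t) / m)) *
        Real.exp (((ns : ℝ) - t) / m)) := by rw [h2, mul_one]
    _ = (P (ns - t) * Real.exp (-(((ns : ℝ) - t) / m))) *
        Real.exp (((ns : ℝ) - t) / m) := by ring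
    _ ≤ (P ns * Real.exp (-(ns / m : ℝ))) * Real.exp (((ns : ℝ) - t) / m) :=
        mul_le_mul_of_nonneg_right h1 (Real.exp_pos _).le
    _ = P ns * Real.exp (-(t / m : ℝ)) := by rw [mul_assoc, h3]

open Classical in
lemma large_bound {m ns : ℕ} (hm : 1 ≤ m)
    (hns : ∀ n : ℕ, (P n : ℝ) * Real.exp (-(n / m : ℝ)) ≤ P ns * Real.exp (-(ns / m : ℝ)))
    (T : ℕ) (hT : 1 ≤ T) :
    (#{μ : ns.Partition | T ≤ part μ 1} : ℝ) ≤ P ns * (Real.exp (-(T / m : ℝ)) * (2 * m)) := by
  have hm0 : (0 : ℝ) < m := by exact_mod_cast hm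
  have hm1 : (1 : ℝ) ≤ m := by exact_mod_cast hm
  set x := Real.exp (-(1 / m : ℝ)) with hx
  have hx0 : 0 ≤ x := (Real.exp_pos _).le
  have hy : x ≤ 1 / (1 + 1 / m) := by
    rw [hx, Real.exp_neg, ← one_div]
    apply one_div_le_one_div_of_le (by positivity)
    have := Real.add_one_le_exp (1 / m : ℝ)
    linarith
  have hy2 : (1 : ℝ) / (1 + 1 / m) = 1 - 1 / (m + 1) := by
    field_simp
    ring
  have hy3 : (1 : ℝ) / (2 * m) ≤ 1 / (m + 1) := by
    apply one_div_le_one_div_of_le (by positivity)
    linarith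
  have hy4 : (0 : ℝ) < 1 / (2 * m) := by positivity
  have hx1 : x < 1 := by linarith
  have hx2 : 1 / (1 - x) ≤ 2 * m := by
    rw [div_le_iff₀ (by linarith)]
    have : 2 * m * (1 / (2 * m) : ℝ) = 1 := by field_simp
    nlinarith
  have h1 : (#{μ : ns.Partition | T ≤ part μ 1} : ℝ) ≤ ∑ t ∈ Icc T ns, (P (ns - t) : ℝ) := by
    exact_mod_cast card_large_le ns T hT
  have h2 : ∑ t ∈ Icc T ns, (P (ns - t) : ℝ) ≤ ∑ t ∈ Icc T ns, P ns * Real.exp (-(t / m : ℝ)) := by
    apply sum_le_sum
    intro t ht
    rw [mem_Icc] at ht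
    exact P_sub_le hns t ht.2
  have h3 : ∑ t ∈ Icc T ns, Real.exp (-(t / m : ℝ)) ≤ Real.exp (-(T / m : ℝ)) * (2 * m) := by
    have e0 : Icc T ns = Ico T (ns + 1) := by ext y; simp only [mem_Icc, mem_Ico]; omega
    rw [e0, sum_Ico_eq_sum_range]
    have e1 : ∀ j : ℕ, Real.exp (-(((T + j : ℕ) : ℝ) / m)) = Real.exp (-(T / m : ℝ)) * x ^ j := by
      intro j
      rw [hx, ← Real.exp_nat_mul, ← Real.exp_add]
      congr 1
      push_cast
      ring
    rw [sum_congr rfl (fun j _ => e1 j), ← mul_sum]
    apply mul_le_mul_of_nonneg_left _ (Real.exp_pos _).le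
    exact (geom_le x hx0 hx1 _).trans hx2
  rw [← mul_sum] at h2
  exact h1.trans (h2.trans (mul_le_mul_of_nonneg_left h3 (by positivity)))

open Classical in
lemma small_bound {m ns : ℕ} (hm : 1 ≤ m)
    (hns : ∀ n : ℕ, (P n : ℝ) * Real.exp (-(n / m : ℝ)) ≤ P ns * Real.exp (-(ns / m : ℝ)))
    (h : ℕ) (hh : h < m) :
    (#{μ : ns.Partition | part μ 1 ≤ h} : ℝ) ≤ P ns * (Real.exp 1 / (m - h)) := by
  have hm0 : (0 : ℝ) < m := by exact_mod_cast hm
  have h1 := card_small_mul_le ns h m
  have h2 := P_add_le hns m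
  rw [div_self hm0.ne'] at h2
  have h3 : (#{μ : ns.Partition | part μ 1 ≤ h} : ℝ) * ((m : ℝ) - h) ≤ P (ns + m) := by
    rw [← Nat.cast_sub hh.le]
    exact_mod_cast h1
  have h4 : (0 : ℝ) < (m : ℝ) - h := by
    have : (h : ℝ) < m := by exact_mod_cast hh
    linarith
  rw [← mul_div_assoc, le_div_iff₀ h4]
  exact h3.trans h2

open Classical in
lemma core_bound {m ns : ℕ}
    (hns : ∀ n : ℕ, (P n : ℝ) * Real.exp (-(n / m : ℝ)) ≤ P ns * Real.exp (-(ns / m : ℝ)))
    (t : ℕ) (ht : 1 ≤ t) :
    (#{l : ns.Partition | IsCore t l} : ℝ) ≤ P ns * (Real.exp (t / m : ℝ) / t) := by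
  have ht0 : (0 : ℝ) < t := by exact_mod_cast ht
  have h1 : (#{l : ns.Partition | IsCore t l} : ℝ) * t ≤ P (ns + t) := by
    exact_mod_cast core_mul_le ns t ht
  rw [← mul_div_assoc, le_div_iff₀ ht0]
  exact h1.trans (P_add_le hns t)

lemma zI_le {m ns : ℕ} (hm : 1 ≤ m)
    (hns : ∀ n : ℕ, (P n : ℝ) * Real.exp (-(n / m : ℝ)) ≤ P ns * Real.exp (-(ns / m : ℝ)))
    (h T : ℕ) (hh : h < m) (hT : 1 ≤ T) (η : ℝ) (hη0 : 0 ≤ η)
    (hη : ∀ t : ℕ, h < t → t < T → Real.exp (t / m : ℝ) / t ≤ η) :
    zI ns ≤ Real.exp (-(T / m : ℝ)) * (2 * m) + Real.exp 1 / (m - h) + η := by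
  classical
  have hP : (0 : ℝ) < P ns := by exact_mod_cast P_pos ns
  have hcard : (Nat.card {x : ns.Partition × ns.Partition // IsTypeIZero x.1 x.2} : ℝ) =
      ∑ μ : ns.Partition, (#{l : ns.Partition | IsCore (part μ 1) l} : ℝ) := by
    rw [Nat.card_eq_fintype_card, Fintype.card_subtype]
    have e1 : (({x : ns.Partition × ns.Partition | IsTypeIZero x.1 x.2} : Finset _)) =
        univ.biUnion (fun μ : ns.Partition =>
          ({l : ns.Partition | IsCore (part μ 1) l} : Finset _).image (fun l => (l, μ))) := by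
      ext ⟨l, μ⟩
      simp only [mem_filter, mem_univ, true_and, mem_biUnion, mem_image, Prod.mk.injEq]
      constructor
      · intro hx
        exact ⟨μ, l, hx, rfl, rfl⟩
      · rintro ⟨ν, k, hk, rfl, rfl⟩
        exact hk
    rw [e1, card_biUnion]
    · push_cast
      apply sum_congr rfl
      intro μ _
      rw [card_image_of_injective]
      intro a b hab
      exact (Prod.ext_iff.1 hab).1
    · intro μ _ ν _ hμν
      rw [Function.onFun, disjoint_left]
      rintro ⟨a, b⟩ h1 h2
      simp only [mem_image, mem_filter, mem_univ, true_and, Prod.mk.injEq] at h1 h2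
      obtain ⟨_, _, _, h1⟩ := h1
      obtain ⟨_, _, _, h2⟩ := h2
      exact hμν (h1.trans h2.symm)
  have hterm : ∀ μ : ns.Partition, (#{l : ns.Partition | IsCore (part μ 1) l} : ℝ) ≤
      P ns * ((if T ≤ part μ 1 then 1 else 0) + (if part μ 1 ≤ h then 1 else 0) + η) := by
    intro μ
    have htriv : (#{l : ns.Partition | IsCore (part μ 1) l} : ℝ) ≤ P ns := by
      have : #{l : ns.Partition | IsCore (part μ 1) l} ≤ P ns := by
        unfold P
        rw [← card_univ]
        exact card_le_card (filter_subset _ _)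
      exact_mod_cast this
    by_cases h1 : T ≤ part μ 1
    · rw [if_pos h1]
      have : (0 : ℝ) ≤ if part μ 1 ≤ h then 1 else 0 := by split_ifs <;> norm_num
      nlinarith
    · by_cases h2 : part μ 1 ≤ h
      · rw [if_pos h2, if_neg h1]
        nlinarith
      · rw [if_neg h1, if_neg h2]
        push Not at h1 h2
        have h3 := core_bound hns (part μ 1) (by omega)
        have h4 := hη _ h2 h1
        calc _ ≤ _ := h3
          _ ≤ P ns * η := mul_le_mul_of_nonneg_left h4 hP.le
          _ = _ := by ring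
  have hsum : (Nat.card {x : ns.Partition × ns.Partition // IsTypeIZero x.1 x.2} : ℝ) ≤
      P ns * ((#{μ : ns.Partition | T ≤ part μ 1} : ℝ) + (#{μ : ns.Partition | part μ 1 ≤ h} : ℝ) +
        P ns * η) := by
    rw [hcard]
    refine (sum_le_sum (fun μ _ => hterm μ)).trans (le_of_eq ?_)
    rw [← mul_sum, sum_add_distrib, sum_add_distrib, sum_const, card_univ]
    simp only [sum_boole, nsmul_eq_mul, P]
  have hl := large_bound hm hns T hT
  have hs := small_bound hm hns h hh
  unfold zI
  have hPc : (Nat.card ns.Partition : ℝ) = P ns := by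
    rw [Nat.card_eq_fintype_card]; rfl
  rw [hPc, div_le_iff₀ (by positivity)]
  calc _ ≤ _ := hsum
    _ ≤ P ns * (P ns * (Real.exp (-(T / m : ℝ)) * (2 * m)) + P ns * (Real.exp 1 / (m - h)) +
        P ns * η) := by
        apply mul_le_mul_of_nonneg_left _ hP.le
        linarith
    _ = _ := by ring

lemma exists_small_aux (c : ℝ) (hc : 0 < c) (hc1 : c ≤ 1) (N : ℕ) : ∃ n ≥ N, zI n < c := by
  -- a bound for partition numbers below `N`
  set B : ℝ := ∑ i ∈ range N, (P i : ℝ) with hB
  obtain ⟨n1, hn1⟩ := exists_nat_gt (Real.exp 1 * B)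
  -- conditions for large `m = 2 * h`
  have hlog : Filter.Tendsto (fun m : ℕ => Real.log m) Filter.atTop Filter.atTop :=
    Real.tendsto_log_atTop.comp tendsto_natCast_atTop_atTop
  have hsqrt : Filter.Tendsto (fun m : ℕ => Real.sqrt m) Filter.atTop Filter.atTop :=
    Real.tendsto_sqrt_atTop.comp tendsto_natCast_atTop_atTop
  have hev := ((hlog.eventually_ge_atTop (64 / c ^ 2)).and
    ((hsqrt.eventually_ge_atTop (8 / c)).and
      ((tendsto_natCast_atTop_atTop (R := ℝ)).eventually_ge_atTop (8 * Real.exp 1 / c))))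
  obtain ⟨M, hM⟩ := hev.exists_forall_of_atTop
  set h : ℕ := M + n1 + 2 with hh
  set m : ℕ := 2 * h with hm
  obtain ⟨hm1, hm2, -⟩ := hM m (by omega)
  obtain ⟨-, -, hh3⟩ := hM h (by omega)
  have hm0 : (0 : ℝ) < m := by exact_mod_cast (show 0 < m by omega)
  have hmh : (m : ℝ) = 2 * h := by rw [hm]; push_cast; ring
  have hh0 : (0 : ℝ) < h := by linarith
  have hm4 : (4 : ℝ) ≤ m := by exact_mod_cast (show 4 ≤ m by omega)
  obtain ⟨ns, hns⟩ := exists_support m (by omega)
  refine ⟨ns, ?_, ?_⟩
  · -- `ns` is large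
    by_contra hcon
    push Not at hcon
    have e1 : (P ns : ℝ) ≤ B := by
      rw [hB]
      exact single_le_sum (f := fun i => (P i : ℝ)) (fun i _ => Nat.cast_nonneg _)
        (mem_range.2 hcon)
    have e2 := hns n1
    have e3 : Real.exp (-(ns / m : ℝ)) ≤ 1 := by
      rw [Real.exp_le_one_iff]
      have : (0 : ℝ) ≤ ns / m := by positivity
      linarith
    have e4 : Real.exp (-1) ≤ Real.exp (-(n1 / m : ℝ)) := by
      apply Real.exp_le_exp.2
      have : (n1 / m : ℝ) ≤ 1 := by
        rw [div_le_one hm0]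
        exact_mod_cast (show n1 ≤ m by omega)
      linarith
    have e5 : (n1 : ℝ) ≤ P n1 := by exact_mod_cast le_P n1
    have e6 : (n1 : ℝ) * Real.exp (-1) ≤ B := by
      calc (n1 : ℝ) * Real.exp (-1) ≤ P n1 * Real.exp (-(n1 / m : ℝ)) :=
            mul_le_mul e5 e4 (Real.exp_pos _).le (Nat.cast_nonneg _)
        _ ≤ P ns * Real.exp (-(ns / m : ℝ)) := e2
        _ ≤ P ns * 1 := mul_le_mul_of_nonneg_left e3 (Nat.cast_nonneg _)
        _ ≤ B := by rw [mul_one]; exact e1
    have e7 : Real.exp 1 * ((n1 : ℝ) * Real.exp (-1)) = n1 := by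
      rw [mul_comm (n1 : ℝ), ← mul_assoc, ← Real.exp_add]
      simp
    have e8 := mul_le_mul_of_nonneg_left e6 (Real.exp_pos 1).le
    linarith
  · -- the bound
    have hLpos : 0 < Real.log (8 * m / c) := by
      apply Real.log_pos
      rw [lt_div_iff₀ hc]
      linarith
    set T : ℕ := ⌈(m : ℝ) * Real.log (8 * m / c)⌉₊ with hT
    have hT1 : 1 ≤ T := by
      rw [hT, Nat.one_le_ceil_iff]
      positivity
    have hA : Real.exp (-(T / m : ℝ)) * (2 * m) ≤ c / 4 := by
      have e1 : Real.log (8 * m / c) ≤ T / m := by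
        rw [le_div_iff₀ hm0, mul_comm]
        exact Nat.le_ceil _
      have e2 : Real.exp (-(T / m : ℝ)) ≤ c / (8 * m) := by
        calc Real.exp (-(T / m : ℝ)) ≤ Real.exp (-Real.log (8 * m / c)) :=
              Real.exp_le_exp.2 (by linarith)
          _ = c / (8 * m) := by
              rw [Real.exp_neg, Real.exp_log (by positivity), inv_div]
      calc _ ≤ c / (8 * m) * (2 * m) := mul_le_mul_of_nonneg_right e2 (by positivity)
        _ = c / 4 := by field_simp; norm_num
    have hBd : Real.exp 1 / ((m : ℝ) - h) ≤ c / 8 := by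
      have e1 : (m : ℝ) - h = h := by linarith
      rw [e1, div_le_div_iff₀ hh0 (by norm_num)]
      rw [div_le_iff₀ hc] at hh3
      linarith
    have hη : ∀ t : ℕ, h < t → t < T → Real.exp (t / m : ℝ) / t ≤ c / 4 := by
      intro t ht1 ht2
      have ht1' : (h : ℝ) < t := by exact_mod_cast ht1
      have ht0 : (0 : ℝ) < t := by linarith
      have ht3 : (t : ℝ) < m * Real.log (8 * m / c) := Nat.lt_ceil.1 ht2
      have hlogm : 0 < Real.log m := Real.log_pos (by linarith)
      rcases le_or_gt (t : ℝ) (m / 2 * Real.log m) with hcase | hcase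
      · have e1 : Real.exp (t / m : ℝ) ≤ Real.sqrt m := by
          rw [Real.sqrt_eq_rpow, Real.rpow_def_of_pos hm0]
          apply Real.exp_le_exp.2
          rw [div_le_iff₀ hm0]
          linarith
        have e2 : Real.exp (t / m : ℝ) / t ≤ Real.sqrt m / h :=
          div_le_div₀ (Real.sqrt_nonneg _) e1 hh0 ht1'.le
        have e3 : Real.sqrt m / h ≤ c / 4 := by
          rw [div_le_div_iff₀ hh0 (by norm_num)]
          rw [div_le_iff₀ hc] at hm2
          have e4 : Real.sqrt m * Real.sqrt m = m := Real.mul_self_sqrt hm0.le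
          have e5 : 0 ≤ Real.sqrt m := Real.sqrt_nonneg _
          nlinarith
        exact e2.trans e3
      · have e1 : Real.exp (t / m : ℝ) ≤ 8 * m / c := by
          calc Real.exp (t / m : ℝ) ≤ Real.exp (Real.log (8 * m / c)) := by
                apply Real.exp_le_exp.2
                rw [div_le_iff₀ hm0]
                linarith
            _ = 8 * m / c := Real.exp_log (by positivity)
        have e2 : Real.exp (t / m : ℝ) / t ≤ (8 * m / c) / (m / 2 * Real.log m) :=
          div_le_div₀ (by positivity) e1 (by positivity) hcase.le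
        have e3 : (8 * m / c) / (m / 2 * Real.log m) = 16 / (c * Real.log m) := by
          field_simp
          norm_num
        have e4 : 16 / (c * Real.log m) ≤ c / 4 := by
          rw [div_le_div_iff₀ (by positivity) (by norm_num)]
          rw [div_le_iff₀ (by positivity)] at hm1
          nlinarith
        exact e2.trans (e3.le.trans e4)
    have := zI_le (by omega) hns h T (by omega) hT1 (c / 4) (by positivity) hη
    linarith

/-- `z_I(S_n)` is not bounded away from zero: there are no `c > 0` and `N` such that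
`z_I(S_n) ≥ c` for all `n ≥ N`. Equivalently `liminf z_I(S_n) = 0`. -/
theorem result : ¬ ∃ c : ℝ, 0 < c ∧ ∃ N : ℕ, ∀ n ≥ N, c ≤ zI n := by
  rintro ⟨c, hc, N, hN⟩
  obtain ⟨n, hn, hlt⟩ := exists_small_aux (min c 1) (lt_min hc one_pos) (min_le_right _ _) N
  have := hN n hn
  have h2 := min_le_left c 1
  linarith

end Pool.Agent.Results.MP_ded380_al.TypeIZeroDensityLiminf
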